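import Pool.Agent.HWY.Defs

/-!
helper9. The two-generated module `R + R w` over the rings `Dat.R` of helper11 (`Pool/Agent/HWY`),
for MP_7dc157_al.
-/

set_option autoImplicit false

namespace Pool.Agent.HWF

open PowerSeries Pool.Agent.HWY

variable {L : Type} [Field L]

/-- the module `R + R w` -/
noncomputable def Md (D : Dat L) (w : L) : Submodule D.R (PowerSeries L) :=
  Submodule.span D.R {1, PowerSeries.C w}

end Pool.Agent.HWF
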